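import Mathlib
import Pool.Agent.H.MP_e76747_lc.A

namespace Pool.Agent.Results.MP_e76747_lc.Attained
open Matrix Finset

/-- MDS condition: any `r` distinct blocks form an invertible square matrix. -/
def IsMDS {F : Type} [Field F] {n r l : ℕ} (H : Fin n → Matrix (Fin r × Fin l) (Fin l) F) : Prop :=
  ∀ e : Fin r → Fin n, Function.Injective e →
    IsUnit (Matrix.of fun (a b : Fin r × Fin l) => H (e b.1) a b.2)

/-- Bandwidths of all repair matrices for node `i`. -/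
def BW {F : Type} [Field F] {n r l : ℕ} (H : Fin n → Matrix (Fin r × Fin l) (Fin l) F)
    (i : Fin n) : Set ℕ :=
  {b | ∃ M : Matrix (Fin l) (Fin r × Fin l) F, IsUnit (M * H i) ∧
    b = ∑ j ∈ univ.erase i, (M * H j).rank}

theorem result : ∃ (F : Type) (_ : Field F) (_ : Fintype F), Fintype.card F = 4 ∧
    ∀ n : ℕ, 14 ≤ n → n ≤ 18 → ∃ H : Fin n → Matrix (Fin 3 × Fin 2) (Fin 2) F, IsMDS H ∧
      ∀ i : Fin n, ∃ β : ℕ, IsLeast (BW H i) β ∧
        (β : ℚ) = 2 * ((n : ℚ) - 1) - (3 - 1) * ((4 ^ 2 - 1) / (4 - 1)) := by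
  refine ⟨H.MP_e76747_lc.F4, inferInstance, inferInstance, H.MP_e76747_lc.F4.card,
    fun n h14 hn => ⟨fun j => H.MP_e76747_lc.hh j, fun e he => H.MP_e76747_lc.mds hn e he,
      fun i => ?_⟩⟩
  obtain ⟨h1, h2⟩ := H.MP_e76747_lc.upper h14 hn i
  have h3 := H.MP_e76747_lc.lower hn i _ h1
  refine ⟨_, ⟨⟨_, h1, rfl⟩, ?_⟩, ?_⟩
  · rintro b ⟨M, hM, rfl⟩
    have := H.MP_e76747_lc.lower hn i M hM
    simp only at this h2 ⊢
    omega
  · have h4 := le_antisymm h2 h3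
    have h5 := congrArg (Nat.cast : ℕ → ℚ) h4
    rw [Nat.cast_mul, Nat.cast_sub (by omega), Nat.cast_add] at h5
    simp only [Nat.cast_ofNat, Nat.cast_one] at h5
    linarith

end Pool.Agent.Results.MP_e76747_lc.Attained
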